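import Pool.Agent.L0h49.H.Stm

/-! # Project EVP: the words of length two and three with middle norm two (module AR) -/

set_option autoImplicit false

namespace Pool.Agent.L0h19.EVP

open Pool.Agent.L0h49.H

/-- the words of length two -/
theorem ar1 (a b : ℕ) (c : ℤ) (ha : 0 < a) (hb : 0 < b)
    (h : ((a * b + 1 : ℕ) : ℤ) * c - (b : ℤ) ^ 2 = 2) :
    (b = 2 * a ∧ c = 2) ∨ (a = 2 ∧ b = 1 ∧ c = 1) := by
  obtain ⟨A, hA⟩ : ∃ A : ℤ, A = a := ⟨_, rfl⟩
  obtain ⟨B, hB⟩ : ∃ B : ℤ, B = b := ⟨_, rfl⟩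
  have hA1 : 1 ≤ A := by omega
  have hB1 : 1 ≤ B := by omega
  have h' : (A * B + 1) * c - B ^ 2 = 2 := by
    rw [hA, hB]
    push_cast at h
    exact h
  obtain ⟨k, hk⟩ : ∃ k : ℤ, k = B - A * c := ⟨_, rfl⟩
  have hc : c = 2 + B * k := by rw [hk]; linarith
  have hk2 : k * (1 + A * B) = B - 2 * A := by
    have h1 : k = B - A * (2 + B * k) := by rw [← hc]; exact hk
    linarith
  have hAB : 1 ≤ A * B := by nlinarith
  have hc0 : 0 < c := by
    by_contra hcon
    push Not at hcon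
    nlinarith
  rcases lt_trichotomy k 0 with h0 | h0 | h0
  · have h1 : -2 < B * k := by linarith
    have h2 : B = 1 := by
      by_contra hne
      have h3 : 2 ≤ B := by omega
      nlinarith
    have h3 : k = -1 := by
      rw [h2] at h1
      omega
    have h4 : A = 2 := by
      rw [h2, h3] at hk2
      linarith
    right
    refine ⟨by omega, by omega, ?_⟩
    rw [hc, h2, h3]
    norm_num
  · left
    rw [h0] at hk2 hc
    refine ⟨?_, by linarith⟩
    have : B = 2 * A := by linarith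
    omega
  · exfalso
    have h1 : 1 + A * B ≤ k * (1 + A * B) := by nlinarith
    nlinarith

/-- the words of length three -/
theorem ar2 (a b e : ℕ) (c : ℤ) (ha : 0 < a) (hb : 0 < b) (he : 0 < e)
    (h : ((a * (b * e + 1) + e : ℕ) : ℤ) * c - ((b * e + 1 : ℕ) : ℤ) ^ 2 = -2) :
    (b = 1 ∧ e = 2 * a + 1 ∧ c = 2) ∨ (a = 2 ∧ b = 2 ∧ e = 1 ∧ c = 1) := by
  obtain ⟨A, hA⟩ : ∃ A : ℤ, A = a := ⟨_, rfl⟩
  obtain ⟨B, hB⟩ : ∃ B : ℤ, B = b := ⟨_, rfl⟩
  obtain ⟨E, hE⟩ : ∃ E : ℤ, E = e := ⟨_, rfl⟩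
  have hA1 : 1 ≤ A := by omega
  have hB1 : 1 ≤ B := by omega
  have hE1 : 1 ≤ E := by omega
  have h' : (A * (B * E + 1) + E) * c - (B * E + 1) ^ 2 = -2 := by
    rw [hA, hB, hE]
    push_cast at h
    exact h
  have hBE : 1 ≤ B * E := by nlinarith
  have hc0 : 0 < c := by
    by_contra hcon
    push Not at hcon
    have h1 : 0 ≤ A * (B * E + 1) + E := by nlinarith
    nlinarith [mul_nonneg h1 (neg_nonneg.2 hcon)]
  obtain ⟨w, hw⟩ : ∃ w : ℤ, w = B * E + 1 - A * c := ⟨_, rfl⟩
  have h1 : E * c + 2 = (B * E + 1) * w := by rw [hw]; linarith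
  have h2 : E * (c - B * w) = w - 2 := by linarith
  have hw0 : 0 < w := by
    by_contra hcon
    push Not at hcon
    nlinarith [mul_nonneg (by linarith : (0 : ℤ) ≤ B * E + 1) (neg_nonneg.2 hcon),
      mul_pos (by linarith : (0 : ℤ) < E) hc0]
  have hw' : w = 1 ∨ w = 2 ∨ 3 ≤ w := by omega
  rcases hw' with rfl | rfl | hw3
  · -- `w = 1`
    have h3 : E * (B - c) = 1 := by linarith
    have h4 : E = 1 := by
      have : E ∣ 1 := ⟨B - c, h3.symm⟩
      exact Int.eq_one_of_dvd_one (by linarith) this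
    rw [h4] at h3 hw
    have h5 : (A - 1) * (B - 1) = 1 := by
      have : c = B - 1 := by linarith
      rw [this] at hw
      linarith
    have h6 : A - 1 = 1 := by
      have : A - 1 ∣ 1 := ⟨B - 1, h5.symm⟩
      exact Int.eq_one_of_dvd_one (by linarith) this
    rw [h6] at h5
    right
    refine ⟨by omega, by omega, by omega, by linarith⟩
  · -- `w = 2`
    have h3 : c = 2 * B := by
      have : E * (c - B * 2) = 0 := by linarith
      rcases mul_eq_zero.1 this with h4 | h4
      · linarith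
      · linarith
    have h4 : B * (E - 2 * A) = 1 := by
      rw [h3] at hw
      linarith
    have h5 : B = 1 := by
      have : B ∣ 1 := ⟨E - 2 * A, h4.symm⟩
      exact Int.eq_one_of_dvd_one (by linarith) this
    rw [h5] at h4 h3
    left
    refine ⟨by omega, by omega, by linarith⟩
  · exfalso
    have h3 : 1 ≤ c - B * w := by
      by_contra hcon
      push Not at hcon
      nlinarith
    have h4 : E ≤ w - 2 := by nlinarith
    have h5 : A * c ≥ B * w + 1 := by nlinarith
    nlinarith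

/-- Module AR -/
theorem t_AR : S_AR :=
  ⟨fun a b c ha hb h => ar1 a b c ha hb h, fun a b e c ha hb he h => ar2 a b e c ha hb he h⟩

end Pool.Agent.L0h19.EVP
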